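import Pool.Agent.helper78.NLS.Spec

/-!
# Project nls: ROT (rotation symmetry of the Cauchy transform)
-/

set_option autoImplicit false

open Complex Metric Set Filter Topology MeasureTheory MPS
open Pool.Agent.helper98.ILF Pool.Agent.helper16.Multibrot

noncomputable section

namespace NLS

theorem ROT_norm_om (n : ℕ) : ‖om n‖ = 1 := by
  unfold om
  have : (2 * Real.pi * Complex.I / n : ℂ) = ((2 * Real.pi / n : ℝ) : ℂ) * Complex.I := by
    push_cast; ring
  rw [this, Complex.norm_exp_ofReal_mul_I]

theorem ROT_int (u : ℂ) (hu : ‖u‖ = 1) (F : ℂ → ℂ) : ∫ w : ℂ, F (u * w) = ∫ w : ℂ, F w := by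
  let a : Circle := ⟨u, mem_sphere_zero_iff_norm.mpr hu⟩
  have h := (rotation a).measurePreserving.integral_comp' (f := (rotation a).toHomeomorph.toMeasurableEquiv) F
  simpa [rotation_apply, a] using h

theorem ROT : ROT_stmt := by
  intro n _
  have hn := ROT_norm_om n
  have h0 : om n ≠ 0 := by
    intro h
    rw [h, norm_zero] at hn
    exact zero_ne_one hn
  refine ⟨?_, ?_⟩
  · intro R h _ hs z
    unfold Ct
    rw [← ROT_int (om n) hn (fun w => h (om n * z - w) / w)]
    have : ∀ w : ℂ, h (om n * z - om n * w) / (om n * w) = om n * (h (z - w) / w) := by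
      intro w
      rw [← mul_sub, hs]
      rcases eq_or_ne w 0 with rfl | hw
      · simp
      · field_simp
    simp only [this]
    rw [integral_const_mul]
    ring
  · intro R h _ hs z
    unfold Ct
    rw [← ROT_int (om n) hn (fun w => h (om n * z - w) / w)]
    have : ∀ w : ℂ, h (om n * z - om n * w) / (om n * w) = h (z - w) / w := by
      intro w
      rw [← mul_sub, hs]
      rcases eq_or_ne w 0 with rfl | hw
      · simp
      · field_simp
    simp only [this]

end NLS
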